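import Mathlib

namespace Pool.Agent.H11.HypDom

variable {V : Type} [Fintype V] [DecidableEq V]

/-- An orientation of the hypergraph with edge set `H`: every edge `E` gets a linear ordering,
given as a bijection from the positions `Fin r` to the vertices of `E`. -/
abbrev Orientation (r : ℕ) (H : Finset (Finset V)) : Type :=
  (E : H) → (Fin r ≃ (E : Finset V))

/-- `S` is a directed `p`-dominating set of `D`: every vertex outside `S` lies in an edge whose
first `p` vertices all belong to `S`. -/
def IsDirDom {r : ℕ} {H : Finset (Finset V)} (p : ℕ) (D : Orientation r H) (S : Finset V) : Prop :=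
  ∀ u, u ∉ S → ∃ E : H, u ∈ (E : Finset V) ∧ ∀ i : Fin r, (i : ℕ) < p → ((D E i : V) ∈ S)

/-- The minimum size of a directed `p`-dominating set of the orientation `D`. -/
noncomputable def dirDomNum {r : ℕ} {H : Finset (Finset V)} (p : ℕ) (D : Orientation r H) : ℕ :=
  sInf {k | ∃ S : Finset V, IsDirDom p D S ∧ S.card = k}

/-- The upper directed `p`-domination number: the maximum of `dirDomNum` over all orientations. -/
noncomputable def upperDirDom (r p : ℕ) (H : Finset (Finset V)) : ℕ :=
  (Finset.univ : Finset (Orientation r H)).sup (dirDomNum p)

/-- The independence number: the largest size of a vertex set containing no edge. -/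
def indepNum (H : Finset (Finset V)) : ℕ :=
  ((Finset.univ : Finset (Finset V)).filter (fun S => ∀ E ∈ H, ¬ E ⊆ S)).sup Finset.card

/-- The complete `r`-uniform hypergraph on `n` vertices. -/
def completeHyp (n r : ℕ) : Finset (Finset (Fin n)) :=
  Finset.powersetCard r Finset.univ

end Pool.Agent.H11.HypDom
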