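import Mathlib
import Pool.Agent.H11.HypDom.Defs

namespace Pool.Agent.H11.HypDom

open Finset

lemma exists_order {V : Type} [DecidableEq V] {r : ℕ} (E P : Finset V) (hE : E.card = r)
    (hP : P ⊆ E) : ∃ e : Fin r ≃ E, ∀ s ∈ P, ∃ i : Fin r, (i : ℕ) < P.card ∧ (e i : V) = s := by
  classical
  have hle : P.card ≤ r := hE ▸ Finset.card_le_card hP
  rcases P.eq_empty_or_nonempty with h | ⟨v, hv⟩
  · subst h
    exact ⟨(Finset.equivFinOfCardEq hE).symm, by simp⟩
  let e0 := P.equivFin.symm
  let f : Fin r → V := fun i => if h : (i : ℕ) < P.card then (e0 ⟨i, h⟩ : V) else v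
  obtain ⟨g, hg⟩ := Finset.exists_equiv_extend_of_card_eq (α := Fin r) (t := E)
    (by simp [hE]) (s := Finset.univ.filter (fun i : Fin r => (i : ℕ) < P.card)) (f := f)
    (by
      intro x hx
      obtain ⟨i, hi, rfl⟩ := Finset.mem_image.1 hx
      have hi' := (Finset.mem_filter.1 hi).2
      simp only [f, dif_pos hi']
      exact hP (e0 _).2)
    (by
      intro i hi j hj hij
      have hi' : (i : ℕ) < P.card := by simpa using hi
      have hj' : (j : ℕ) < P.card := by simpa using hj
      simp only [f, dif_pos hi', dif_pos hj'] at hij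
      have := e0.injective (Subtype.ext hij)
      exact Fin.ext (by simpa using this))
  refine ⟨g, fun s hs => ?_⟩
  let j := e0.symm ⟨s, hs⟩
  have hj : (j : ℕ) < P.card := j.2
  refine ⟨⟨j, lt_of_lt_of_le hj hle⟩, hj, ?_⟩
  rw [hg _ (by simpa using hj)]
  simp only [f, dif_pos hj]
  simp [j]

lemma lt_upper {n r p k : ℕ} (N : Fin n → Fin n → Prop) (hirr : ∀ x, ¬ N x x)
    (h1 : ∀ E : Finset (Fin n), E.card = r → ∃ P ⊆ E, P.card ≤ p ∧ ∀ u ∈ E, ∃ s ∈ P, ¬ N s u)
    (h2 : ∀ S : Finset (Fin n), S.card ≤ k → ∃ u, ∀ s ∈ S, N s u) :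
    k < upperDirDom r p (completeHyp n r) := by
  classical
  have hc : ∀ E : completeHyp n r, (E : Finset (Fin n)).card = r := fun E =>
    (Finset.mem_powersetCard.1 E.2).2
  choose P hP hPc hPd using h1
  have h3 : ∀ E : completeHyp n r, ∃ e : Fin r ≃ (E : Finset (Fin n)),
      ∀ s ∈ P E (hc E), ∃ i : Fin r, (i : ℕ) < (P E (hc E)).card ∧ (e i : Fin n) = s :=
    fun E => exists_order _ _ (hc E) (hP E (hc E))
  choose D hD using h3
  have h4 : k < dirDomNum p (D : Orientation r (completeHyp n r)) := by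
    by_contra hcon
    push Not at hcon
    have hne : {k | ∃ S : Finset (Fin n), IsDirDom p (D : Orientation r (completeHyp n r)) S
        ∧ S.card = k}.Nonempty :=
      ⟨_, Finset.univ, fun u hu => absurd (Finset.mem_univ u) hu, rfl⟩
    obtain ⟨S, hS, hSc⟩ := Nat.sInf_mem hne
    obtain ⟨u, hu⟩ := h2 S (by rw [hSc]; exact hcon)
    have huS : u ∉ S := fun h => hirr u (hu u h)
    obtain ⟨E, huE, hE⟩ := hS u huS
    obtain ⟨s, hs, hns⟩ := hPd E (hc E) u huE
    obtain ⟨i, hi, his⟩ := hD E s hs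
    have := hE i (lt_of_lt_of_le hi (hPc E (hc E)))
    rw [his] at this
    exact hns (hu s this)
  exact lt_of_lt_of_le h4 (Finset.le_sup (f := dirDomNum p) (Finset.mem_univ _))

/-! ### The bound of Szekeres and Szekeres for oriented graphs -/

open Classical in
lemma exists_small_outdeg {V : Type} (N : V → V → Prop) (has : ∀ x y, N x y → ¬ N y x)
    (E : Finset V) (hE : E.Nonempty) :
    ∃ v ∈ E, 2 * (E.filter (fun u => N v u)).card + 1 ≤ E.card := by
  by_contra hcon
  push Not at hcon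
  have h1 : ∑ v ∈ E, (E.filter (fun u => N v u)).card = ∑ v ∈ E, (E.filter (fun u => N u v)).card := by
    simp only [Finset.card_filter]
    exact Finset.sum_comm
  have h2 : ∀ v ∈ E, (E.filter (fun u => N v u)).card + (E.filter (fun u => N u v)).card + 1
      ≤ E.card := by
    intro v hv
    rw [← Finset.card_union_of_disjoint]
    · have : (E.filter (fun u => N v u) ∪ E.filter (fun u => N u v)) ⊆ E.erase v := by
        intro u hu
        rw [Finset.mem_erase]
        rcases Finset.mem_union.1 hu with h | h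
        · rw [Finset.mem_filter] at h
          exact ⟨fun e => has _ _ h.2 (by rw [e]; rw [e] at h; exact h.2), h.1⟩
        · rw [Finset.mem_filter] at h
          exact ⟨fun e => has _ _ h.2 (by rw [e]; rw [e] at h; exact h.2), h.1⟩
      have h3 := Finset.card_le_card this
      rw [Finset.card_erase_of_mem hv] at h3
      have := Finset.card_pos.2 hE
      omega
    · rw [Finset.disjoint_filter]
      intro u _ h
      exact has _ _ h
  have h3 := Finset.sum_le_sum h2
  have h4 : ∑ v ∈ E, E.card ≤ ∑ v ∈ E, 2 * (E.filter (fun u => N v u)).card :=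
    Finset.sum_le_sum (fun v hv => by have := hcon v hv; omega)
  rw [Finset.sum_add_distrib, Finset.sum_add_distrib, ← h1] at h3
  rw [← Finset.mul_sum] at h4
  have h5 : ∑ _v ∈ E, 1 = E.card := by simp
  have := Finset.card_pos.2 hE
  omega

open Classical in
lemma szek {V : Type} (N : V → V → Prop) (has : ∀ x y, N x y → ¬ N y x) (m : ℕ) (hm : 1 ≤ m)
    (k : ℕ) : ∀ E : Finset V,
      (∀ P ⊆ E, P.card ≤ k → m ≤ (E.filter (fun u => ∀ s ∈ P, N s u)).card) →
      2 ^ k * (m + 1) ≤ E.card + 1 := by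
  induction k with
  | zero =>
    intro E h
    have := h ∅ (by simp) (by simp)
    simp at this
    omega
  | succ k ih =>
    intro E h
    have hE : E.Nonempty := by
      have := h ∅ (by simp) (by simp)
      simp at this
      exact Finset.card_pos.1 (by omega)
    obtain ⟨v, hv, hd⟩ := exists_small_outdeg N has E hE
    have := ih (E.filter (fun u => N v u)) (by
      intro P hP hPc
      have h1 := h (insert v P) (Finset.insert_subset hv (hP.trans (Finset.filter_subset _ _)))
        ((Finset.card_insert_le _ _).trans (by omega))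
      refine h1.trans (Finset.card_le_card ?_)
      intro u hu
      simp only [Finset.mem_filter, Finset.mem_insert, forall_eq_or_imp] at hu ⊢
      exact ⟨⟨hu.1, hu.2.1⟩, hu.2.2⟩)
    rw [pow_succ]
    nlinarith

open Classical in
lemma szek' {V : Type} (N : V → V → Prop) (has : ∀ x y, N x y → ¬ N y x) (p : ℕ) (hp : 1 ≤ p)
    (E : Finset V) (h : ∀ P ⊆ E, P.card ≤ p → ∃ u ∈ E, ∀ s ∈ P, N s u) :
    2 ^ (p - 1) * (p + 2) ≤ E.card + 1 := by
  apply szek N has (p + 1) (by omega)
  intro P hP hPc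
  by_contra hcon
  push Not at hcon
  obtain ⟨w, hw, hw2⟩ := h (E.filter (fun u => ∀ s ∈ P, N s u)) (Finset.filter_subset _ _)
    (by omega)
  obtain ⟨v, hv, hv2⟩ := h (insert w P) (Finset.insert_subset hw hP)
    ((Finset.card_insert_le _ _).trans (by omega))
  apply has w v (hv2 w (Finset.mem_insert_self _ _))
  apply hw2
  exact Finset.mem_filter.2 ⟨hv, fun s hs => hv2 s (Finset.mem_insert_of_mem hs)⟩

/-! ### Walks -/

/-- Walks of given length. -/
def Wk {V : Type} (N : V → V → Prop) : ℕ → V → V → Prop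
  | 0, x, y => x = y
  | j + 1, x, z => ∃ y, Wk N j x y ∧ N y z

lemma Wk_cons {V : Type} (N : V → V → Prop) (j : ℕ) : ∀ x y z, N x y → Wk N j y z →
    Wk N (j + 1) x z := by
  induction j with
  | zero => intro x y z h h'; exact ⟨x, rfl, by rw [← show y = z from h']; exact h⟩
  | succ j ih =>
    intro x y z h h'
    obtain ⟨w, hw, hw'⟩ := h'
    exact ⟨w, ih x y w h hw, hw'⟩

lemma Wk_map {V W : Type} (N : W → W → Prop) (f : V → W) (j : ℕ) : ∀ x y,
    Wk (fun a b => N (f a) (f b)) j x y → Wk N j (f x) (f y) := by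
  induction j with
  | zero => intro x y h; exact congrArg f h
  | succ j ih =>
    intro x y h
    obtain ⟨w, hw, hw'⟩ := h
    exact ⟨f w, ih x w hw, hw'⟩

lemma common_walk {V : Type} (N : V → V → Prop) (p : ℕ) (E : Finset V) (hE : E.Nonempty)
    (h : ∀ P ⊆ E, P.card ≤ p → ∃ u ∈ E, ∀ s ∈ P, N s u) (j : ℕ) :
    ∀ X ⊆ E, X.card ≤ p ^ j → ∃ u ∈ E, ∀ x ∈ X, Wk N j x u := by
  classical
  induction j with
  | zero =>
    intro X hX hc
    rcases X.eq_empty_or_nonempty with h0 | ⟨x, hx⟩
    · obtain ⟨u, hu⟩ := hE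
      exact ⟨u, hu, by simp [h0]⟩
    · refine ⟨x, hX hx, fun y hy => ?_⟩
      exact Finset.card_le_one.1 (by simpa using hc) y hy x hx
  | succ j ih =>
    intro X hX hc
    obtain ⟨e⟩ : Nonempty (X ↪ Fin (p ^ j) × Fin p) :=
      Function.Embedding.nonempty_of_card_le (by simpa [pow_succ] using hc)
    have h1 : ∀ a : Fin (p ^ j), ∃ u ∈ E, ∀ x : X, (e x).1 = a → N x u := by
      intro a
      obtain ⟨u, hu, hu2⟩ := h ((Finset.univ.filter (fun x : X => (e x).1 = a)).image Subtype.val)
        (by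
          intro y hy
          obtain ⟨x, _, rfl⟩ := Finset.mem_image.1 hy
          exact hX x.2)
        (by
          refine Finset.card_image_le.trans ?_
          have : (Finset.univ.filter (fun x : X => (e x).1 = a)).card ≤ (Finset.univ : Finset (Fin p)).card := by
            apply Finset.card_le_card_of_injOn (fun x => (e x).2) (by simp)
            intro x hx y hy hxy
            simp only [Finset.coe_filter, Finset.mem_univ, true_and, Set.mem_setOf_eq] at hx hy
            apply e.injective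
            exact Prod.ext (hx.trans hy.symm) hxy
          simpa using this)
      exact ⟨u, hu, fun x hx => hu2 x (Finset.mem_image.2 ⟨x, by simpa using hx, rfl⟩)⟩
    choose g hg hg2 using h1
    obtain ⟨u, hu, hu2⟩ := ih (Finset.univ.image g)
      (by
        intro y hy
        obtain ⟨a, _, rfl⟩ := Finset.mem_image.1 hy
        exact hg a)
      (Finset.card_image_le.trans (by simp))
    refine ⟨u, hu, fun x hx => ?_⟩
    exact Wk_cons N j x _ u (hg2 _ ⟨x, hx⟩ rfl) (hu2 _ (Finset.mem_image.2 ⟨_, Finset.mem_univ _, rfl⟩))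

lemma closed_walk {V : Type} (N : V → V → Prop) (E : Finset V) (hE : E.Nonempty)
    (h : ∀ x ∈ E, ∃ u ∈ E, N x u) : ∃ j x, 1 ≤ j ∧ j ≤ E.card ∧ Wk N j x x := by
  classical
  have h1 : ∀ x : E, ∃ u : E, N x u := fun x => by
    obtain ⟨u, hu, hu2⟩ := h x x.2
    exact ⟨⟨u, hu⟩, hu2⟩
  choose g hg using h1
  have h2 : ∀ j (x : E), Wk N j x (g^[j] x : E) := by
    intro j
    induction j with
    | zero => intro x; rfl
    | succ j ih =>
      intro x
      rw [Function.iterate_succ_apply']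
      exact ⟨_, ih x, hg _⟩
  obtain ⟨x0, hx0⟩ := hE
  obtain ⟨a, b, hab, he⟩ := Fintype.exists_ne_map_eq_of_card_lt
    (fun i : Fin (E.card + 1) => g^[i] (⟨x0, hx0⟩ : E)) (by simp)
  wlog hlt : a < b generalizing a b
  · exact this b a hab.symm he.symm (lt_of_le_of_ne (not_lt.1 hlt) hab.symm)
  have hlt' : (a : ℕ) < b := hlt
  refine ⟨b - a, (g^[a] (⟨x0, hx0⟩ : E) : E), by omega, by have := b.2; omega, ?_⟩
  have h3 := h2 (b - a) (g^[a] (⟨x0, hx0⟩ : E))
  rw [← Function.iterate_add_apply, show (b : ℕ) - a + a = b by omega] at h3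
  have he' : g^[a] (⟨x0, hx0⟩ : E) = g^[b] (⟨x0, hx0⟩ : E) := he
  rw [← he'] at h3
  exact h3

lemma exists_surj {W : Type} [Fintype W] [Nonempty W] {n : ℕ} (h : Fintype.card W ≤ n) :
    ∃ f : Fin n → W, Function.Surjective f := by
  obtain ⟨e⟩ : Nonempty (W ↪ Fin n) := Function.Embedding.nonempty_of_card_le (by simpa using h)
  exact ⟨Function.invFun e, Function.invFun_surjective e.injective⟩

lemma pull_common {W : Type} {n k : ℕ} (N : W → W → Prop) (f : Fin n → W)
    (hf : Function.Surjective f) (h2 : ∀ S : Finset W, S.card ≤ k → ∃ u, ∀ s ∈ S, N s u) :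
    ∀ S : Finset (Fin n), S.card ≤ k → ∃ u, ∀ s ∈ S, N (f s) (f u) := by
  classical
  intro S hS
  obtain ⟨w, hw⟩ := h2 (S.image f) (Finset.card_image_le.trans hS)
  obtain ⟨u, rfl⟩ := hf w
  exact ⟨u, fun s hs => hw _ (Finset.mem_image_of_mem f hs)⟩

lemma lt_upper_of_asymm {W : Type} [Fintype W] [Nonempty W] {n r p k : ℕ} (N : W → W → Prop)
    (has : ∀ x y, N x y → ¬ N y x) (h2 : ∀ S : Finset W, S.card ≤ k → ∃ u, ∀ s ∈ S, N s u)
    (hn : Fintype.card W ≤ n) (hp : 1 ≤ p) (hr : r + 2 ≤ (p + 2) * 2 ^ (p - 1)) :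
    k < upperDirDom r p (completeHyp n r) := by
  obtain ⟨f, hf⟩ := exists_surj hn
  apply lt_upper (fun a b => N (f a) (f b)) (fun x hx => has _ _ hx hx) _ (pull_common N f hf h2)
  intro E hE
  by_contra hcon
  push Not at hcon
  have := szek' (fun a b => N (f a) (f b)) (fun x y => has _ _) p hp E hcon
  rw [hE, mul_comm] at this
  omega

lemma lt_upper_of_girth {W : Type} [Fintype W] [Nonempty W] {n r p k L : ℕ} (N : W → W → Prop)
    (hg : ∀ j x, 1 ≤ j → j ≤ L → ¬ Wk N j x x)
    (h2 : ∀ S : Finset W, S.card ≤ k → ∃ u, ∀ s ∈ S, N s u)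
    (hn : Fintype.card W ≤ n) (hp : 1 ≤ p) (hL : 1 ≤ L) (hr1 : 1 ≤ r) (hr : r ≤ L ∨ r ≤ p ^ L) :
    k < upperDirDom r p (completeHyp n r) := by
  obtain ⟨f, hf⟩ := exists_surj hn
  apply lt_upper (fun a b => N (f a) (f b)) (fun x hx => hg 1 (f x) le_rfl hL ⟨f x, rfl, hx⟩) _
    (pull_common N f hf h2)
  intro E hE
  by_contra hcon
  push Not at hcon
  have hne : E.Nonempty := Finset.card_pos.1 (by omega)
  rcases hr with hr | hr
  · obtain ⟨j, x, hj1, hj2, hw⟩ := closed_walk (fun a b => N (f a) (f b)) E hne (by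
      intro x hx
      obtain ⟨u, hu, hu2⟩ := hcon {x} (by simpa using hx) (by simpa using hp)
      exact ⟨u, hu, hu2 x (by simp)⟩)
    exact hg j (f x) hj1 (by omega) (Wk_map N f j x x hw)
  · obtain ⟨u, hu, hu2⟩ := common_walk (fun a b => N (f a) (f b)) p E hne hcon L E
      Finset.Subset.rfl (by omega)
    exact hg L (f u) hL le_rfl (Wk_map N f L u u (hu2 u hu))

end Pool.Agent.H11.HypDom
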