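import Mathlib
import Pool.Agent.H11.HypDom.Defs

namespace Pool.Agent.H11.HypDom

open Finset

variable {V : Type} [Fintype V] [DecidableEq V]

/-- `u` is hit by `S`. -/
def Hit {r : ℕ} {H : Finset (Finset V)} (p : ℕ) (D : Orientation r H) (S : Finset V) (u : V) : Prop :=
  ∃ E : H, u ∈ (E : Finset V) ∧ ∀ i : Fin r, (i : ℕ) < p → ((D E i : V) ∈ S)

lemma Hit.mono {r : ℕ} {H : Finset (Finset V)} {p : ℕ} {D : Orientation r H} {S S' : Finset V}
    {u : V} (h : Hit p D S u) (hS : S ⊆ S') : Hit p D S' u := by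
  obtain ⟨E, hu, hE⟩ := h
  exact ⟨E, hu, fun i hi => hS (hE i hi)⟩

lemma card_le_indepNum (H : Finset (Finset V)) (S : Finset V) (hS : ∀ E ∈ H, ¬ E ⊆ S) :
    S.card ≤ indepNum H := by
  unfold indepNum
  exact Finset.le_sup (f := Finset.card) (by simpa using hS)

open Classical in
lemma bad_le {r p : ℕ} {H : Finset (Finset V)} (hp : p + 1 ≤ r) (D : Orientation r H)
    (T : Finset V) :
    (T.filter (fun u => ¬ Hit p D (T.erase u) u)).card ≤ indepNum H := by
  apply card_le_indepNum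
  intro E hE hsub
  set w : V := (D ⟨E, hE⟩ ⟨r - 1, by omega⟩ : V) with hw
  have hwE : w ∈ E := (D ⟨E, hE⟩ ⟨r - 1, by omega⟩).2
  have h1 := hsub hwE
  rw [Finset.mem_filter] at h1
  apply h1.2
  refine ⟨⟨E, hE⟩, hwE, fun i hi => ?_⟩
  rw [Finset.mem_erase]
  refine ⟨?_, ?_⟩
  · intro h
    have h2 : D ⟨E, hE⟩ i = D ⟨E, hE⟩ ⟨r - 1, by omega⟩ := Subtype.ext h
    have h3 := (D ⟨E, hE⟩).injective h2
    have h4 : (i : ℕ) = r - 1 := by rw [h3]
    omega
  · exact (Finset.mem_filter.1 (hsub (D ⟨E, hE⟩ i).2)).1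

open Classical in
lemma exists_half {r p : ℕ} {H : Finset (Finset V)} (hp : p + 1 ≤ r) (D : Orientation r H)
    (a : ℕ) (ha : indepNum H ≤ a) (ha1 : 1 ≤ a) (U : Finset V) (hU : 2 * a ≤ U.card) :
    ∃ S : Finset V, S.card ≤ 2 * a ∧
      2 * (U.filter (fun u => u ∉ S ∧ ¬ Hit p D S u)).card ≤ U.card := by
  by_contra hcon
  push_neg at hcon
  obtain ⟨t, ht⟩ : ∃ t, 2 * a = t + 1 := ⟨2 * a - 1, by omega⟩
  have key : ∑ S ∈ U.powersetCard t, (U.filter (fun u => u ∉ S ∧ ¬ Hit p D S u)).card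
      ≤ ∑ T ∈ U.powersetCard (t + 1), (T.filter (fun u => ¬ Hit p D (T.erase u) u)).card := by
    rw [← Finset.card_sigma, ← Finset.card_sigma]
    apply Finset.card_le_card_of_injOn (fun x => (⟨insert x.2 x.1, x.2⟩ : Σ _ : Finset V, V))
    · rintro ⟨S, u⟩ hx
      simp only [Finset.coe_sigma, Set.mem_sigma_iff, Finset.mem_coe, Finset.mem_powersetCard,
        Finset.mem_filter] at hx ⊢
      obtain ⟨⟨hSU, hSc⟩, huU, huS, hnh⟩ := hx
      refine ⟨⟨?_, ?_⟩, ?_, ?_⟩
      · exact Finset.insert_subset huU hSU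
      · rw [Finset.card_insert_of_notMem huS, hSc]
      · exact Finset.mem_insert_self _ _
      · rwa [Finset.erase_insert huS]
    · rintro ⟨S, u⟩ hx ⟨S', u'⟩ hx' heq
      simp only [Finset.coe_sigma, Set.mem_sigma_iff, Finset.mem_coe, Finset.mem_powersetCard,
        Finset.mem_filter] at hx hx'
      simp only [Sigma.mk.injEq, heq_eq_eq] at heq
      obtain ⟨h1, h2⟩ := heq
      subst h2
      have : S = S' := by
        rw [← Finset.erase_insert hx.2.2.1, h1, Finset.erase_insert hx'.2.2.1]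
      subst this
      rfl
  have h2 : ∑ T ∈ U.powersetCard (t + 1), (T.filter (fun u => ¬ Hit p D (T.erase u) u)).card
      ≤ (U.card.choose (t + 1)) * a := by
    rw [← Finset.card_powersetCard, ← smul_eq_mul]
    apply Finset.sum_le_card_nsmul
    intro T _
    exact (bad_le hp D T).trans ha
  have h3 : (U.card.choose t) * (U.card + 1) ≤
      2 * ∑ S ∈ U.powersetCard t, (U.filter (fun u => u ∉ S ∧ ¬ Hit p D S u)).card := by
    rw [Finset.mul_sum, ← Finset.card_powersetCard, ← smul_eq_mul]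
    apply Finset.card_nsmul_le_sum
    intro S hS
    have := hcon S (by rw [(Finset.mem_powersetCard.1 hS).2]; omega)
    omega
  have h4 := Nat.choose_succ_right_eq U.card t
  have h5 : 0 < U.card.choose t := Nat.choose_pos (by omega)
  have h6 : U.card.choose t * (U.card + 1) ≤ U.card.choose t * (U.card - t) := by
    calc U.card.choose t * (U.card + 1) ≤ 2 * (U.card.choose (t + 1) * a) := by omega
      _ = U.card.choose (t + 1) * (t + 1) := by rw [← ht]; ring
      _ = _ := h4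
  have := Nat.le_of_mul_le_mul_left h6 h5
  omega

open Classical in
lemma exists_cover {r p : ℕ} {H : Finset (Finset V)} (hp : p + 1 ≤ r) (D : Orientation r H)
    (a : ℕ) (ha : indepNum H ≤ a) (ha1 : 1 ≤ a) (k : ℕ) :
    ∀ U : Finset V, U.card < 2 ^ k →
      ∃ S : Finset V, S.card ≤ 2 * a * k ∧ ∀ u ∈ U, u ∉ S → Hit p D S u := by
  induction k with
  | zero =>
    intro U hU
    refine ⟨∅, by simp, ?_⟩
    have : U = ∅ := by
      rw [← Finset.card_eq_zero]; simpa using hU
    simp [this]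
  | succ k ih =>
    intro U hU
    by_cases h : 2 * a ≤ U.card
    · obtain ⟨S, hS, hS2⟩ := exists_half hp D a ha ha1 U h
      obtain ⟨S', hS', hS'2⟩ := ih (U.filter (fun u => u ∉ S ∧ ¬ Hit p D S u)) (by
        rw [pow_succ] at hU; omega)
      refine ⟨S ∪ S', ?_, ?_⟩
      · calc (S ∪ S').card ≤ S.card + S'.card := Finset.card_union_le _ _
          _ ≤ 2 * a + 2 * a * k := by omega
          _ = 2 * a * (k + 1) := by ring
      · intro u hu huS
        rw [Finset.mem_union, not_or] at huS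
        by_cases hh : Hit p D S u
        · exact hh.mono Finset.subset_union_left
        · exact (hS'2 u (Finset.mem_filter.2 ⟨hu, huS.1, hh⟩) huS.2).mono Finset.subset_union_right
    · refine ⟨U, ?_, fun u hu hu' => absurd hu hu'⟩
      have : 2 * a ≤ 2 * a * (k + 1) := Nat.le_mul_of_pos_right _ (by omega)
      omega

lemma upperDirDom_le {r p : ℕ} {H : Finset (Finset V)} (hp : p + 1 ≤ r)
    (a : ℕ) (ha : indepNum H ≤ a) (ha1 : 1 ≤ a) :
    upperDirDom r p H ≤ 2 * a * (Nat.log 2 (Fintype.card V) + 1) := by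
  unfold upperDirDom
  apply Finset.sup_le
  intro D _
  obtain ⟨S, hS, hS2⟩ := exists_cover hp D a ha ha1 (Nat.log 2 (Fintype.card V) + 1)
    Finset.univ (by rw [Finset.card_univ]; exact Nat.lt_pow_succ_log_self (by norm_num) _)
  refine le_trans ?_ hS
  apply Nat.sInf_le
  exact ⟨S, fun u hu => hS2 u (Finset.mem_univ _) hu, rfl⟩

lemma natlog_bound (n : ℕ) (hn : 2 ≤ n) :
    ((Nat.log 2 n + 1 : ℕ) : ℝ) ≤ 3 * Real.log n := by
  have h1 : 1 ≤ Nat.log 2 n := by
    apply Nat.le_log_of_pow_le (by norm_num); simpa using hn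
  have h2 : (2 : ℝ) ^ (Nat.log 2 n) ≤ n := by
    exact_mod_cast Nat.pow_log_le_self 2 (by omega : n ≠ 0)
  have h3 : (Nat.log 2 n : ℝ) * Real.log 2 ≤ Real.log n := by
    rw [← Real.log_pow]
    exact Real.log_le_log (by positivity) h2
  have h4 := Real.log_two_gt_d9
  have h5 : (1 : ℝ) ≤ Nat.log 2 n := by exact_mod_cast h1
  push_cast
  nlinarith

lemma upperDirDom_le_real {r p : ℕ} {H : Finset (Finset V)} (hp : p + 1 ≤ r)
    (a : ℕ) (ha : indepNum H ≤ a) (ha1 : 1 ≤ a) (hn : 2 ≤ Fintype.card V) :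
    (upperDirDom r p H : ℝ) ≤ 6 * a * Real.log (Fintype.card V) := by
  have h1 := upperDirDom_le hp a ha ha1
  have h2 := natlog_bound _ hn
  have h3 : (upperDirDom r p H : ℝ) ≤ 2 * a * ((Nat.log 2 (Fintype.card V) + 1 : ℕ) : ℝ) := by
    exact_mod_cast h1
  have h4 : (0 : ℝ) ≤ a := by positivity
  nlinarith

lemma one_le_indepNum {r : ℕ} {H : Finset (Finset V)} (hr : 2 ≤ r) (hH : ∀ E ∈ H, E.card = r)
    (hn : 1 ≤ Fintype.card V) : 1 ≤ indepNum H := by
  obtain ⟨v⟩ : Nonempty V := Fintype.card_pos_iff.1 hn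
  have := card_le_indepNum H {v} (fun E hE hsub => by
    have := Finset.card_le_card hsub
    rw [hH E hE, Finset.card_singleton] at this
    omega)
  simpa using this

end Pool.Agent.H11.HypDom
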