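import Mathlib
import Pool.Agent.H11.HypDom.Defs
import Pool.Agent.H11.HypDom.Lower
import Pool.Agent.H11.HypDom.Upper

namespace Pool.Agent.H11.HypDom

open Finset

/-! ### A random Boolean matrix -/

lemma good_count (m k : ℕ) (s : Fin k → Fin m) (b : Bool) :
    2 ^ m ≤ 2 ^ k * (Finset.univ.filter (fun g : Fin m → Bool => ∀ i, g (s i) = b)).card := by
  classical
  have h := Finset.card_le_card_of_injOn (s := (Finset.univ : Finset (Fin m → Bool)))
    (t := (Finset.univ : Finset (Fin k → Bool)) ×ˢ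
      (Finset.univ.filter (fun g : Fin m → Bool => ∀ i, g (s i) = b)))
    (fun g => (fun i => g (s i), fun j => if ∃ i, s i = j then b else g j))
    (by
      intro g _
      simp only [Finset.coe_product, Finset.coe_univ, Finset.coe_filter, Finset.mem_univ,
        true_and, Set.mem_prod, Set.mem_univ, Set.mem_ofPred_eq]
      intro i
      rw [if_pos ⟨i, rfl⟩])
    (by
      intro g _ g' _ h
      simp only [Prod.mk.injEq] at h
      funext j
      by_cases hj : ∃ i, s i = j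
      · obtain ⟨i, rfl⟩ := hj
        exact congrFun h.1 i
      · have := congrFun h.2 j
        simpa [hj] using this)
  simpa using h

lemma bad_count (m k : ℕ) (s : Fin k → Fin m) (b : Bool) :
    ((Finset.univ.filter (fun M : Fin m → Fin m → Bool => ∀ a, ¬ ∀ i, M a (s i) = b)).card : ℝ)
      ≤ (2 ^ m * (1 - 1 / 2 ^ k)) ^ m := by
  classical
  have h1 : (Finset.univ.filter (fun M : Fin m → Fin m → Bool => ∀ a, ¬ ∀ i, M a (s i) = b)) =
      Fintype.piFinset (fun _ : Fin m =>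
        Finset.univ.filter (fun g : Fin m → Bool => ¬ ∀ i, g (s i) = b)) := by
    ext M
    simp [Fintype.mem_piFinset]
  rw [h1, Fintype.card_piFinset]
  simp only [Finset.prod_const, Finset.card_univ, Fintype.card_fin, Nat.cast_pow]
  apply pow_le_pow_left₀ (by positivity)
  have h2 := Finset.card_filter_add_card_filter_not (s := (Finset.univ : Finset (Fin m → Bool)))
    (fun g : Fin m → Bool => ∀ i, g (s i) = b)
  have h3 := good_count m k s b
  simp only [Finset.card_univ, Fintype.card_pi, Fintype.card_bool, Finset.prod_const,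
    Fintype.card_fin] at h2
  have h4 : ((Finset.univ.filter (fun g : Fin m → Bool => ∀ i, g (s i) = b)).card : ℝ) +
      ((Finset.univ.filter (fun g : Fin m → Bool => ¬ ∀ i, g (s i) = b)).card : ℝ) = 2 ^ m := by
    exact_mod_cast h2
  have h5 : (2 : ℝ) ^ m ≤ 2 ^ k *
      ((Finset.univ.filter (fun g : Fin m → Bool => ∀ i, g (s i) = b)).card : ℝ) := by
    exact_mod_cast h3
  have h6 : (2 : ℝ) ^ m / 2 ^ k ≤
      ((Finset.univ.filter (fun g : Fin m → Bool => ∀ i, g (s i) = b)).card : ℝ) := by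
    rw [div_le_iff₀ (by positivity)]; linarith
  have h7 : (2 : ℝ) ^ m * (1 - 1 / 2 ^ k) = 2 ^ m - 2 ^ m / 2 ^ k := by ring
  linarith

lemma four_pow_ge (k : ℕ) : 1 + 3 * k ^ 2 ≤ 4 ^ k := by
  induction k with
  | zero => simp
  | succ k ih =>
    rcases Nat.eq_zero_or_pos k with h | h
    · subst h; simp
    · rw [pow_succ 4]; nlinarith

lemma union_ineq (k : ℕ) : 2 * ((8 : ℝ) ^ k) ^ k * (1 - 1 / 2 ^ k) ^ (8 ^ k) < 1 := by
  have h0 : (0 : ℝ) ≤ 1 - 1 / 2 ^ k := by
    have : (1 : ℝ) ≤ 2 ^ k := one_le_pow₀ (by norm_num)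
    rw [sub_nonneg, div_le_one (by positivity)]; exact this
  have h1 : (1 - 1 / 2 ^ k : ℝ) ≤ Real.exp (-(1 / 2 ^ k)) := by
    have := Real.add_one_le_exp (-(1 / 2 ^ k : ℝ)); linarith
  have h2 : (1 - 1 / 2 ^ k : ℝ) ^ (8 ^ k) ≤ Real.exp (-(4 ^ k)) := by
    refine (pow_le_pow_left₀ h0 h1 _).trans (le_of_eq ?_)
    rw [← Real.exp_nat_mul]
    congr 1
    push_cast
    have : (8 : ℝ) ^ k = 4 ^ k * 2 ^ k := by rw [← mul_pow]; norm_num
    rw [this]; field_simp
  have h3 : 2 * ((8 : ℝ) ^ k) ^ k = Real.exp ((1 + 3 * k ^ 2 : ℕ) * Real.log 2) := by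
    rw [Real.exp_nat_mul, Real.exp_log (by norm_num), pow_add, ← pow_mul,
      show (8 : ℝ) = 2 ^ 3 by norm_num, ← pow_mul]
    congr 2 <;> ring
  have h4 : ((1 + 3 * k ^ 2 : ℕ) : ℝ) ≤ 4 ^ k := by exact_mod_cast four_pow_ge k
  have h5 := Real.log_two_lt_d9
  have h6 : (0 : ℝ) < ((1 + 3 * k ^ 2 : ℕ) : ℝ) := by positivity
  calc 2 * ((8 : ℝ) ^ k) ^ k * (1 - 1 / 2 ^ k) ^ (8 ^ k)
      ≤ 2 * ((8 : ℝ) ^ k) ^ k * Real.exp (-(4 ^ k)) := by gcongr
    _ = Real.exp ((1 + 3 * k ^ 2 : ℕ) * Real.log 2 + -(4 ^ k)) := by rw [h3, Real.exp_add]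
    _ < 1 := by
      rw [Real.exp_lt_one_iff]
      nlinarith

lemma exists_matrix (k : ℕ) : ∃ M : Fin (8 ^ k) → Fin (8 ^ k) → Bool,
    (∀ s : Fin k → Fin (8 ^ k), ∃ a, ∀ i, M a (s i) = false) ∧
    (∀ s : Fin k → Fin (8 ^ k), ∃ a, ∀ i, M (s i) a = true) := by
  classical
  set m := 8 ^ k with hm
  by_contra hcon
  have hcov : (Finset.univ : Finset (Fin m → Fin m → Bool)) ⊆
      (Finset.univ.biUnion (fun s : Fin k → Fin m =>
        Finset.univ.filter (fun M : Fin m → Fin m → Bool => ∀ a, ¬ ∀ i, M a (s i) = false))) ∪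
      (Finset.univ.biUnion (fun s : Fin k → Fin m =>
        (Finset.univ.filter (fun M : Fin m → Fin m → Bool => ∀ a, ¬ ∀ i, M a (s i) = true)).image
          (fun M a b => M b a))) := by
    intro M _
    by_contra hM
    apply hcon
    simp only [Finset.mem_union, Finset.mem_biUnion, Finset.mem_univ, true_and, Finset.mem_filter,
      Finset.mem_image, not_or, not_exists, not_and] at hM
    refine ⟨M, fun s => ?_, fun s => ?_⟩
    · have := hM.1 s
      push Not at this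
      exact this
    · by_contra h
      push Not at h
      exact hM.2 s (fun a b => M b a) (fun a ha => by
        obtain ⟨i, hi⟩ := h a
        exact hi (ha i)) rfl
  have h1 := Finset.card_le_card hcov
  have h2 := h1.trans (Finset.card_union_le _ _)
  have h3 : ((Finset.univ.biUnion (fun s : Fin k → Fin m =>
        Finset.univ.filter (fun M : Fin m → Fin m → Bool => ∀ a, ¬ ∀ i, M a (s i) = false))).card : ℝ)
      ≤ (m : ℝ) ^ k * (2 ^ m * (1 - 1 / 2 ^ k)) ^ m := by
    refine le_trans (Nat.cast_le.2 Finset.card_biUnion_le) ?_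
    push_cast
    refine (Finset.sum_le_card_nsmul _ _ _ (fun s _ => bad_count m k s false)).trans ?_
    simp
  have h4 : ((Finset.univ.biUnion (fun s : Fin k → Fin m =>
        (Finset.univ.filter (fun M : Fin m → Fin m → Bool => ∀ a, ¬ ∀ i, M a (s i) = true)).image
          (fun M a b => M b a))).card : ℝ)
      ≤ (m : ℝ) ^ k * (2 ^ m * (1 - 1 / 2 ^ k)) ^ m := by
    refine le_trans (Nat.cast_le.2 Finset.card_biUnion_le) ?_
    push_cast
    refine (Finset.sum_le_card_nsmul _ _ _ (fun s _ =>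
      le_trans (Nat.cast_le.2 Finset.card_image_le) (bad_count m k s true))).trans ?_
    simp
  have h5 : ((Finset.univ : Finset (Fin m → Fin m → Bool)).card : ℝ) = (2 ^ m) ^ m := by
    simp
  have h6 : ((2 : ℝ) ^ m) ^ m ≤ 2 * ((m : ℝ) ^ k * (2 ^ m * (1 - 1 / 2 ^ k)) ^ m) := by
    rw [← h5]
    have := (Nat.cast_le (α := ℝ)).2 h2
    push_cast at this
    linarith
  have h7 := union_ineq k
  have h8 : (m : ℝ) = 8 ^ k := by rw [hm]; push_cast; rfl
  rw [mul_pow, h8] at h6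
  have h9 : (0 : ℝ) < ((2 : ℝ) ^ m) ^ m := by positivity
  have : ((2 : ℝ) ^ m) ^ m * 1 ≤ ((2 : ℝ) ^ m) ^ m * (2 * ((8 : ℝ) ^ k) ^ k * (1 - 1 / 2 ^ k) ^ m) := by
    linarith
  have := le_of_mul_le_mul_left this h9
  linarith

lemma exists_enum {W : Type} [Nonempty W] {k : ℕ} (S : Finset W) (hS : S.card ≤ k) :
    ∃ s : Fin k → W, ∀ x ∈ S, ∃ i, s i = x := by
  classical
  obtain ⟨e⟩ : Nonempty (S ↪ Fin k) := Function.Embedding.nonempty_of_card_le (by simpa using hS)
  refine ⟨fun i => if h : ∃ x, e x = i then (h.choose : W) else Classical.arbitrary W, ?_⟩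
  intro x hx
  refine ⟨e ⟨x, hx⟩, ?_⟩
  have h : ∃ y, e y = e ⟨x, hx⟩ := ⟨_, rfl⟩
  simp only [dif_pos h]
  have := e.injective h.choose_spec
  rw [this]

lemma lt_upper_tour {n r p k : ℕ} (hn : 64 ^ k ≤ n) (hp : 1 ≤ p)
    (hr : r + 2 ≤ (p + 2) * 2 ^ (p - 1)) : k < upperDirDom r p (completeHyp n r) := by
  obtain ⟨M, hM1, hM2⟩ := exists_matrix k
  haveI : Nonempty (Fin (8 ^ k)) := ⟨⟨0, by positivity⟩⟩
  apply lt_upper_of_asymm (W := Fin (8 ^ k) × Fin (8 ^ k))
    (fun x y => M x.1 y.2 = true ∧ M y.1 x.2 = false) _ _ _ hp hr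
  · intro x y h h'
    have := h.1.symm.trans h'.2
    simp at this
  · intro S hS
    obtain ⟨s, hs⟩ := exists_enum S hS
    obtain ⟨a, ha⟩ := hM1 (fun i => (s i).2)
    obtain ⟨b, hb⟩ := hM2 (fun i => (s i).1)
    refine ⟨(a, b), fun x hx => ?_⟩
    obtain ⟨i, rfl⟩ := hs x hx
    exact ⟨hb i, ha i⟩
  · simp only [Fintype.card_prod, Fintype.card_fin]
    rw [← mul_pow]; exact hn

/-! ### Digraphs of large girth in which every `k` vertices have a common out-neighbour -/

/-- The vertices. -/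
abbrev LV (L k q : ℕ) : Type := (i : Fin L) → Fin (k ^ (i : ℕ)) → Fin q

/-- The labels on level `j`. -/
def lev {L k q : ℕ} (x : LV L k q) (j : ℕ) : Finset (Fin q) :=
  if h : j < L then Finset.univ.image (x ⟨j, h⟩) else ∅

lemma lev_card {L k q : ℕ} (x : LV L k q) (j : ℕ) : (lev x j).card ≤ k ^ j := by
  unfold lev
  split_ifs
  · exact Finset.card_image_le.trans (by simp)
  · simp

/-- The arcs. -/
def LN {L k q : ℕ} (x y : LV L k q) : Prop :=
  (∀ j, j + 1 < L → lev x j ⊆ lev y (j + 1)) ∧ ∀ j, j < L → Disjoint (lev y 0) (lev x j)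

lemma LN_walk {L k q : ℕ} (j : ℕ) : ∀ x y : LV L k q, j < L → Wk LN j x y → lev x 0 ⊆ lev y j := by
  induction j with
  | zero => intro x y _ h; rw [show x = y from h]
  | succ j ih =>
    intro x y hj h
    obtain ⟨w, hw, hw'⟩ := h
    exact (ih x w (by omega) hw).trans (hw'.1 j hj)

lemma LN_girth {L k q : ℕ} (j : ℕ) (x : LV L k q) (h1 : 1 ≤ j) (h2 : j ≤ L) : ¬ Wk LN j x x := by
  intro h
  obtain ⟨j, rfl⟩ : ∃ i, j = i + 1 := ⟨j - 1, by omega⟩
  obtain ⟨w, hw, hw'⟩ := h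
  have h3 := LN_walk j x w (by omega) hw
  have h4 := hw'.2 j (by omega)
  have h5 : lev x 0 = ∅ := Finset.disjoint_self_iff_empty _ |>.1 (h4.mono_right h3)
  unfold lev at h5
  rw [dif_pos (by omega)] at h5
  simp only [Finset.image_eq_empty, Finset.univ_eq_empty_iff] at h5
  exact h5.elim ⟨0, by simp⟩

lemma LN_common {L k : ℕ} (hk : 1 ≤ k) (S : Finset (LV L k (L * k ^ L + 1))) (hS : S.card ≤ k) :
    ∃ u, ∀ s ∈ S, LN s u := by
  classical
  have h1 : ∃ l : Fin (L * k ^ L + 1), l ∉ S.biUnion (fun s => (Finset.range L).biUnion (lev s)) := by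
    by_contra h
    push Not at h
    have h2 : (Finset.univ : Finset (Fin (L * k ^ L + 1))) ⊆
        S.biUnion (fun s => (Finset.range L).biUnion (lev s)) := fun x _ => h x
    have h3 := Finset.card_le_card h2
    have h4 : (S.biUnion (fun s => (Finset.range L).biUnion (lev s))).card ≤ k * (L * k ^ (L - 1)) := by
      refine Finset.card_biUnion_le.trans ?_
      refine (Finset.sum_le_card_nsmul _ _ (L * k ^ (L - 1)) (fun s _ => ?_)).trans ?_
      · refine Finset.card_biUnion_le.trans ?_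
        refine (Finset.sum_le_card_nsmul _ _ (k ^ (L - 1)) (fun j hj => ?_)).trans (by simp)
        exact (lev_card s j).trans (Nat.pow_le_pow_right hk (by
          have := Finset.mem_range.1 hj; omega))
      · rw [smul_eq_mul]; exact Nat.mul_le_mul_right _ hS
    simp only [Finset.card_univ, Fintype.card_fin] at h3
    rcases Nat.eq_zero_or_pos L with h0 | h0
    · subst h0; simp at h4 h3
    · have : k * (L * k ^ (L - 1)) = L * k ^ L := by
        obtain ⟨L', rfl⟩ : ∃ L', L = L' + 1 := ⟨L - 1, by omega⟩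
        simp [pow_succ]; ring
      omega
  obtain ⟨l, hl⟩ := h1
  have h2 : ∀ j : ℕ, ∃ g : Fin (k ^ (j + 1)) → Fin (L * k ^ L + 1),
      ∀ x ∈ S.biUnion (fun s => lev s j), ∃ i, g i = x := by
    intro j
    apply exists_enum
    refine Finset.card_biUnion_le.trans ?_
    refine (Finset.sum_le_card_nsmul _ _ (k ^ j) (fun s _ => lev_card s j)).trans ?_
    rw [smul_eq_mul, pow_succ, mul_comm]
    exact Nat.mul_le_mul_left _ hS
  choose g hg using h2
  let u : LV L k (L * k ^ L + 1) := fun i => match i with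
    | ⟨0, _⟩ => fun _ => l
    | ⟨j + 1, _⟩ => g j
  refine ⟨u, fun s hs => ⟨fun j hj => ?_, fun j hj => ?_⟩⟩
  · intro x hx
    obtain ⟨i, hi⟩ := hg j x (Finset.mem_biUnion.2 ⟨s, hs, hx⟩)
    unfold lev
    rw [dif_pos hj]
    exact Finset.mem_image.2 ⟨i, Finset.mem_univ _, hi⟩
  · rw [Finset.disjoint_left]
    intro x hx hx'
    unfold lev at hx
    rw [dif_pos (by omega)] at hx
    obtain ⟨i, _, hi⟩ := Finset.mem_image.1 hx
    apply hl
    have : x = l := hi.symm
    rw [← this]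
    exact Finset.mem_biUnion.2 ⟨s, hs, Finset.mem_biUnion.2 ⟨j, Finset.mem_range.2 hj, hx'⟩⟩

lemma LV_card {L k q : ℕ} (hk : 1 ≤ k) (hq : 1 ≤ q) :
    Fintype.card (LV L k q) ≤ q ^ (L * k ^ (L - 1)) := by
  simp only [LV, Fintype.card_pi, Fintype.card_fin, Finset.prod_const, Finset.card_univ]
  rw [Finset.prod_pow_eq_pow_sum]
  apply Nat.pow_le_pow_right hq
  refine (Finset.sum_le_card_nsmul _ _ (k ^ (L - 1)) (fun j _ => ?_)).trans (by simp)
  exact Nat.pow_le_pow_right hk (by have := j.2; omega)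

lemma lt_upper_level {n r p k L : ℕ} (hk : 1 ≤ k) (hn : (L * k ^ L + 1) ^ (L * k ^ (L - 1)) ≤ n)
    (hp : 1 ≤ p) (hL : 1 ≤ L) (hr1 : 1 ≤ r) (hr : r ≤ L ∨ r ≤ p ^ L) :
    k < upperDirDom r p (completeHyp n r) := by
  haveI : Nonempty (LV L k (L * k ^ L + 1)) := ⟨fun _ _ => 0⟩
  exact lt_upper_of_girth (W := LV L k (L * k ^ L + 1)) LN (fun j x => LN_girth j x)
    (LN_common hk) ((LV_card hk (by omega)).trans hn) hp hL hr1 hr

lemma upper_pos {n r p : ℕ} (hn : 1 ≤ n) (hp : 1 ≤ p) (hr : 1 ≤ r) :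
    0 < upperDirDom r p (completeHyp n r) := by
  apply lt_upper (fun _ _ => False) (by simp)
  · intro E hE
    obtain ⟨v, hv⟩ : E.Nonempty := Finset.card_pos.1 (by omega)
    exact ⟨{v}, by simpa using hv, by simpa using hp, by simp⟩
  · intro S hS
    refine ⟨⟨0, hn⟩, ?_⟩
    have : S = ∅ := Finset.card_eq_zero.1 (by omega)
    simp [this]

lemma indep_complete (n r : ℕ) : indepNum (completeHyp n r) ≤ r - 1 := by
  unfold indepNum
  apply Finset.sup_le
  intro S hS
  by_contra h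
  obtain ⟨E, hE, hEc⟩ := Finset.exists_subset_card_eq (s := S) (n := r) (by omega)
  exact (Finset.mem_filter.1 hS).2 E (Finset.mem_powersetCard.2 ⟨Finset.subset_univ _, hEc⟩) hE

end Pool.Agent.H11.HypDom
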