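import Mathlib
import Pool.Agent.H11.HypDom.Defs
import Pool.Agent.H11.HypDom.Constr

namespace Pool.Agent.H11.HypDom

open Finset

lemma theta_lower {n r p : ℕ} (hn : 1 ≤ n) (hp : 1 ≤ p) (hr : r + 2 ≤ (p + 2) * 2 ^ (p - 1)) :
    (1 / 5 : ℝ) * Real.log n ≤ upperDirDom r p (completeHyp n r) := by
  have h1 := lt_upper_tour (n := n) (r := r) (p := p) (k := Nat.log 64 n)
    (Nat.pow_log_le_self 64 (by omega)) hp hr
  have h2 : n < 64 ^ (Nat.log 64 n + 1) := Nat.lt_pow_succ_log_self (by norm_num) n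
  have h3 : (n : ℝ) ≤ 2 ^ (6 * (Nat.log 64 n + 1)) := by
    rw [pow_mul]; exact_mod_cast h2.le
  have h4 : Real.log n ≤ (6 * (Nat.log 64 n + 1) : ℕ) * Real.log 2 := by
    rw [← Real.log_pow]
    exact Real.log_le_log (by exact_mod_cast hn) h3
  have h5 : ((Nat.log 64 n + 1 : ℕ) : ℝ) ≤ upperDirDom r p (completeHyp n r) := by
    exact_mod_cast h1
  have h6 := Real.log_two_lt_d9
  push_cast at h4 h5
  have h7 : (0 : ℝ) ≤ Nat.log 64 n := by positivity
  nlinarith

lemma theta_upper {n r p : ℕ} (hn : 2 ≤ n) (hp : 1 ≤ p) (hr : p + 1 ≤ r) :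
    (upperDirDom r p (completeHyp n r) : ℝ) ≤ 6 * r * Real.log n := by
  have := upperDirDom_le_real (H := completeHyp n r) hr r ((indep_complete n r).trans (by omega))
    (by omega) (by simpa using hn)
  simpa using this

lemma one_le_loglog {n : ℕ} (hn : 16 ≤ n) : 1 ≤ Real.log (Real.log n) := by
  have h1 : Real.log 16 ≤ Real.log n := Real.log_le_log (by norm_num) (by exact_mod_cast hn)
  have h2 : Real.log 16 = 4 * Real.log 2 := by
    rw [show (16 : ℝ) = 2 ^ 4 by norm_num, Real.log_pow]; norm_num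
  have h3 := Real.log_two_gt_d9
  have h4 := Real.exp_one_lt_d9
  rw [Real.le_log_iff_exp_le (by linarith)]
  linarith

lemma poly_lower {n r p L : ℕ} (hn : 16 ≤ n) (hp : 1 ≤ p) (hL : 2 ≤ L) (hr1 : 1 ≤ r)
    (hr : r ≤ L ∨ r ≤ p ^ L) :
    1 / (2 * (L : ℝ) ^ 2) * (Real.log n / Real.log (Real.log n)) ^ (1 / ((L : ℝ) - 1))
      ≤ upperDirDom r p (completeHyp n r) := by
  obtain ⟨d, rfl⟩ : ∃ d, L = d + 1 := ⟨L - 1, by omega⟩
  have hd : 1 ≤ d := by omega
  have hd' : (1 : ℝ) ≤ d := by exact_mod_cast hd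
  set A := Real.log n with hA
  set a := Real.log A with ha
  have ha1 : 1 ≤ a := one_le_loglog hn
  have hA1 : 1 ≤ A := by
    by_contra h
    have hA0 : 0 ≤ A := Real.log_nonneg (by exact_mod_cast (by omega : 1 ≤ n))
    have : a ≤ 0 := Real.log_nonpos hA0 (by linarith)
    linarith
  set c : ℝ := 1 / (2 * ((d + 1 : ℕ) : ℝ) ^ 2) with hc
  have hc0 : 0 < c := by positivity
  have hL1 : (2 : ℝ) ≤ ((d + 1 : ℕ) : ℝ) := by exact_mod_cast hL
  have hc1 : c ≤ 1 := by
    rw [hc, div_le_one (by positivity)]; nlinarith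
  have he : (1 / (((d + 1 : ℕ) : ℝ) - 1)) = (d : ℝ)⁻¹ := by push_cast; simp
  rw [he]
  set y := c * (A / a) ^ (d : ℝ)⁻¹ with hy
  have hy0 : 0 ≤ y := by positivity
  have hyk := Nat.lt_floor_add_one y
  set k := ⌊y⌋₊ with hk
  have hmain : k < upperDirDom r p (completeHyp n r) := by
    rcases Nat.eq_zero_or_pos k with h0 | h0
    · rw [h0]; exact upper_pos (by omega) hp hr1
    apply lt_upper_level h0 _ hp (by omega) hr1 hr
    have hk1 : (1 : ℝ) ≤ k := by exact_mod_cast h0
    have h1 : (k : ℝ) ^ d ≤ c * (A / a) := by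
      calc (k : ℝ) ^ d ≤ y ^ d := pow_le_pow_left₀ (by positivity) (Nat.floor_le hy0) d
        _ = c ^ d * (A / a) := by
          rw [hy, mul_pow, Real.rpow_inv_natCast_pow (by positivity) (by omega)]
        _ ≤ c * (A / a) := by
          apply mul_le_mul_of_nonneg_right _ (by positivity)
          calc c ^ d ≤ c ^ 1 := pow_le_pow_of_le_one hc0.le hc1 hd
            _ = c := pow_one c
    have h2 : (k : ℝ) ≤ A := by
      calc (k : ℝ) = k ^ 1 := (pow_one _).symm
        _ ≤ k ^ d := pow_le_pow_right₀ hk1 hd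
        _ ≤ c * (A / a) := h1
        _ ≤ 1 * (A / 1) := by gcongr
        _ = A := by ring
    have h3 : Real.log (((d + 1) * k ^ (d + 1) + 1 : ℕ) : ℝ) ≤ 2 * (d + 1) * a := by
      have h4 : (((d + 1) * k ^ (d + 1) + 1 : ℕ) : ℝ) ≤ (d + 2) * A ^ (d + 1) := by
        push_cast
        have h5 : (k : ℝ) ^ (d + 1) ≤ A ^ (d + 1) := pow_le_pow_left₀ (by positivity) h2 _
        have h6 : (1 : ℝ) ≤ A ^ (d + 1) := one_le_pow₀ hA1
        nlinarith
      refine (Real.log_le_log (by positivity) h4).trans ?_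
      rw [Real.log_mul (by positivity) (by positivity), Real.log_pow]
      have h7 := Real.log_le_sub_one_of_pos (show (0 : ℝ) < d + 2 by positivity)
      push_cast
      rw [← ha]
      nlinarith
    have h8 : (((((d + 1) * k ^ (d + 1) + 1) ^ ((d + 1) * k ^ (d + 1 - 1)) : ℕ) : ℝ)) ≤ n := by
      rw [← Real.log_le_log_iff (by positivity) (by positivity), Nat.cast_pow, Real.log_pow, ← hA]
      simp only [Nat.add_sub_cancel]
      calc (((d + 1) * k ^ d : ℕ) : ℝ) * Real.log (((d + 1) * k ^ (d + 1) + 1 : ℕ) : ℝ)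
          ≤ ((d + 1) * (c * (A / a))) * (2 * (d + 1) * a) := by
            apply mul_le_mul _ h3 (Real.log_natCast_nonneg _) (by positivity)
            push_cast
            gcongr
        _ = A := by
          rw [hc]; push_cast; field_simp
    exact_mod_cast h8
  have : ((k + 1 : ℕ) : ℝ) ≤ upperDirDom r p (completeHyp n r) := by exact_mod_cast hmain
  push_cast at this
  linarith

/-! ### The upper bound for `p = 1` -/

open Classical in
lemma shrink {n k : ℕ} (hk : 1 ≤ k) (hn : 1 ≤ n) (N : Fin n → Fin n → Prop) (G : Fin n → Prop)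
    (hG : ∀ z, G z → ∀ x y, N z x → N x y → ¬ N y z)
    (h1 : ∀ S : Finset (Fin n), S.card ≤ k → ∃ u, ∀ s ∈ S, N s u)
    (h2 : ∀ S : Finset (Fin n), S.card ≤ k → ∃ u, G u ∧ ∀ s ∈ S, N s u)
    (U : Finset (Fin n)) :
    ∃ z, ((U.filter (fun u => N z u)).card : ℝ) ≤ U.card * (Real.log n / k ^ 2) := by
  let I : Fin n → Finset (Fin n) := fun z => U.filter (fun x => G z ∧ ∃ y, N x y ∧ N y z)
  have hcov : Fintype.piFinset (fun _ : Fin k × Fin k => U) ⊆
      Finset.univ.biUnion (fun z => Fintype.piFinset (fun _ : Fin k × Fin k => I z)) := by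
    intro t ht
    rw [Fintype.mem_piFinset] at ht
    have h3 : ∀ i : Fin k, ∃ a, ∀ j, N (t (i, j)) a := by
      intro i
      obtain ⟨u, hu⟩ := h1 (Finset.univ.image (fun j => t (i, j)))
        (Finset.card_image_le.trans (by simp))
      exact ⟨u, fun j => hu _ (Finset.mem_image_of_mem _ (Finset.mem_univ j))⟩
    choose a ha using h3
    obtain ⟨z, hz, hz2⟩ := h2 (Finset.univ.image a) (Finset.card_image_le.trans (by simp))
    refine Finset.mem_biUnion.2 ⟨z, Finset.mem_univ _, ?_⟩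
    rw [Fintype.mem_piFinset]
    rintro ⟨i, j⟩
    exact Finset.mem_filter.2 ⟨ht _, hz, a i, ha i j,
      hz2 _ (Finset.mem_image_of_mem _ (Finset.mem_univ i))⟩
  haveI : Nonempty (Fin n) := ⟨⟨0, hn⟩⟩
  obtain ⟨z, -, hz⟩ := Finset.exists_max_image Finset.univ (fun z => (I z).card) Finset.univ_nonempty
  have h4 : U.card ^ (k * k) ≤ n * (I z).card ^ (k * k) := by
    have h5 := (Finset.card_le_card hcov).trans Finset.card_biUnion_le
    simp only [Fintype.card_piFinset, Finset.prod_const, Finset.card_univ, Fintype.card_prod,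
      Fintype.card_fin] at h5
    refine h5.trans ?_
    refine (Finset.sum_le_card_nsmul _ _ ((I z).card ^ (k * k)) (fun w _ => ?_)).trans (by simp)
    exact Nat.pow_le_pow_left (hz w (Finset.mem_univ _)) _
  refine ⟨z, ?_⟩
  have h6 : (U.filter (fun u => N z u)).card + (I z).card ≤ U.card := by
    rw [← Finset.card_union_of_disjoint]
    · apply Finset.card_le_card
      exact Finset.union_subset (Finset.filter_subset _ _) (Finset.filter_subset _ _)
    · rw [Finset.disjoint_filter]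
      rintro x _ hx ⟨hGz, y, hxy, hyz⟩
      exact hG z hGz x y hx hxy hyz
  have hkk : k * k ≠ 0 := by positivity
  have hn' : (0 : ℝ) < n := by exact_mod_cast hn
  have hk' : (0 : ℝ) < k := by exact_mod_cast hk
  have h7 : (U.card : ℝ) * Real.exp (-(Real.log n / k ^ 2)) ≤ (I z).card := by
    apply le_of_pow_le_pow_left₀ hkk (by positivity)
    rw [mul_pow, ← Real.exp_nat_mul]
    have : ((k * k : ℕ) : ℝ) * -(Real.log n / k ^ 2) = -Real.log n := by
      push_cast; field_simp
    rw [this, Real.exp_neg, Real.exp_log hn', ← div_eq_mul_inv, div_le_iff₀ hn']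
    have h8 : ((U.card : ℝ)) ^ (k * k) ≤ n * ((I z).card : ℝ) ^ (k * k) := by exact_mod_cast h4
    linarith
  have h9 := Real.add_one_le_exp (-(Real.log n / k ^ 2))
  have h10 : ((U.filter (fun u => N z u)).card : ℝ) + (I z).card ≤ U.card := by exact_mod_cast h6
  have h11 : (0 : ℝ) ≤ U.card := by positivity
  nlinarith

open Classical in
lemma key_ineq {n k : ℕ} (hk : 1 ≤ k) (hn : 1 ≤ n) (N : Fin n → Fin n → Prop) (G : Fin n → Prop)
    (hG : ∀ z, G z → ∀ x y, N z x → N x y → ¬ N y z)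
    (h1 : ∀ S : Finset (Fin n), S.card ≤ k → ∃ u, ∀ s ∈ S, N s u)
    (h2 : ∀ S : Finset (Fin n), S.card ≤ k → ∃ u, G u ∧ ∀ s ∈ S, N s u) :
    1 ≤ n * (Real.log n / k ^ 2) ^ k := by
  have hθ : 0 ≤ Real.log n / k ^ 2 := div_nonneg (Real.log_natCast_nonneg n) (by positivity)
  have h3 : ∀ j : ℕ, ∃ S : Finset (Fin n), S.card ≤ j ∧
      ((Finset.univ.filter (fun u => ∀ s ∈ S, N s u)).card : ℝ) ≤ n * (Real.log n / k ^ 2) ^ j := by
    intro j
    induction j with
    | zero => exact ⟨∅, by simp, by simp⟩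
    | succ j ih =>
      obtain ⟨S, hS, hS2⟩ := ih
      obtain ⟨z, hz⟩ := shrink hk hn N G hG h1 h2 (Finset.univ.filter (fun u => ∀ s ∈ S, N s u))
      refine ⟨insert z S, (Finset.card_insert_le _ _).trans (by omega), ?_⟩
      have : Finset.univ.filter (fun u => ∀ s ∈ insert z S, N s u) =
          (Finset.univ.filter (fun u => ∀ s ∈ S, N s u)).filter (fun u => N z u) := by
        ext u; simp [and_comm]
      rw [this, pow_succ, ← mul_assoc]
      exact hz.trans (mul_le_mul_of_nonneg_right hS2 hθ)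
  obtain ⟨S, hS, hS2⟩ := h3 k
  obtain ⟨u, hu⟩ := h1 S hS
  have : 0 < (Finset.univ.filter (fun u => ∀ s ∈ S, N s u)).card :=
    Finset.card_pos.2 ⟨u, by simpa using hu⟩
  have h4 : (1 : ℝ) ≤ (Finset.univ.filter (fun u => ∀ s ∈ S, N s u)).card := by exact_mod_cast this
  linarith

lemma dom_ineq {n r k : ℕ} (hr : 3 ≤ r) (hn : r ≤ n) (hk : 1 ≤ k)
    (D : Orientation r (completeHyp n r)) (h : k + r < dirDomNum 1 D) :
    1 ≤ n * (Real.log n / k ^ 2) ^ k := by
  classical
  let N : Fin n → Fin n → Prop := fun x u => x ≠ u ∧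
    ∀ E : completeHyp n r, u ∈ (E : Finset (Fin n)) → (D E ⟨0, by omega⟩ : Fin n) ≠ x
  have h1 : ∀ S : Finset (Fin n), S.card ≤ k + r → ∃ u, ∀ s ∈ S, N s u := by
    intro S hS
    have : ¬ IsDirDom 1 D S := by
      intro hD
      have : dirDomNum 1 D ≤ S.card := Nat.sInf_le ⟨S, hD, rfl⟩
      omega
    unfold IsDirDom at this
    push Not at this
    obtain ⟨u, hu, hu2⟩ := this
    refine ⟨u, fun s hs => ⟨fun e => hu (e ▸ hs), fun E hE he => ?_⟩⟩
    obtain ⟨i, hi, hi2⟩ := hu2 E hE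
    have : i = ⟨0, by omega⟩ := Fin.ext (by simp; omega)
    rw [this, he] at hi2
    exact hi2 hs
  obtain ⟨R, -, hR⟩ := Finset.exists_subset_card_eq (s := (Finset.univ : Finset (Fin n))) (n := r)
    (by simpa using hn)
  apply key_ineq hk (by omega) N (fun z => ∀ s ∈ R, N s z)
  · intro z hz x y hzx hxy hyz
    have hc : ({x, y, z} : Finset (Fin n)).card ≤ r := (Finset.card_le_three).trans hr
    obtain ⟨E, hE1, hE2, hE3⟩ := Finset.exists_subsuperset_card_eq
      (s := ({x, y, z} : Finset (Fin n))) (t := {x, y, z} ∪ R) (n := r) Finset.subset_union_left hc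
      (hR ▸ Finset.card_le_card Finset.subset_union_right)
    have hEm : E ∈ completeHyp n r := Finset.mem_powersetCard.2 ⟨Finset.subset_univ _, hE3⟩
    have hv : (D ⟨E, hEm⟩ ⟨0, by omega⟩ : Fin n) ∈ E := (D ⟨E, hEm⟩ ⟨0, by omega⟩).2
    have hx : x ∈ E := hE1 (by simp)
    have hy : y ∈ E := hE1 (by simp)
    have hz' : z ∈ E := hE1 (by simp)
    have := hE2 hv
    simp only [Finset.mem_union, Finset.mem_insert, Finset.mem_singleton] at this
    rcases this with (h | h | h) | h
    · exact hxy.2 ⟨E, hEm⟩ hy h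
    · exact hyz.2 ⟨E, hEm⟩ hz' h
    · exact hzx.2 ⟨E, hEm⟩ hx h
    · exact (hz _ h).2 ⟨E, hEm⟩ hz' rfl
  · intro S hS
    exact h1 S (by omega)
  · intro S hS
    obtain ⟨u, hu⟩ := h1 (S ∪ R) ((Finset.card_union_le _ _).trans (by omega))
    exact ⟨u, fun s hs => hu s (Finset.mem_union_right _ hs),
      fun s hs => hu s (Finset.mem_union_left _ hs)⟩

lemma one_upper {n r : ℕ} (hr : 3 ≤ r) (hn : r ≤ n) :
    (upperDirDom r 1 (completeHyp n r) : ℝ)
      ≤ (r + 5) * (Real.log n / Real.log (Real.log n)) := by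
  set A := Real.log n with hA
  set a := Real.log A with ha
  have hA1 : 1 < A := by
    have h1 : Real.log 3 ≤ A := Real.log_le_log (by norm_num) (by exact_mod_cast (by omega : 3 ≤ n))
    have h2 : 1 < Real.log 3 := by
      rw [Real.lt_log_iff_exp_lt (by norm_num)]
      have := Real.exp_one_lt_d9; linarith
    linarith
  have ha0 : 0 < a := Real.log_pos hA1
  have haA : a ≤ A := by
    have := Real.log_le_sub_one_of_pos (show 0 < A by linarith); linarith
  have hq : 1 ≤ A / a := by rw [le_div_iff₀ ha0]; linarith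
  set k := ⌊4 * (A / a)⌋₊ + 1 with hk
  have hk1 : 4 * (A / a) < k := by rw [hk]; push_cast; exact Nat.lt_floor_add_one _
  have hk2 : (k : ℝ) ≤ 4 * (A / a) + 1 := by
    rw [hk]; push_cast
    have := Nat.floor_le (show 0 ≤ 4 * (A / a) by positivity); linarith
  have hmain : upperDirDom r 1 (completeHyp n r) ≤ k + r := by
    unfold upperDirDom
    apply Finset.sup_le
    intro D _
    by_contra hcon
    push Not at hcon
    have h1 := dom_ineq hr hn (by omega) D hcon
    rw [← hA] at h1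
    have hn' : (0 : ℝ) < n := by exact_mod_cast (by omega : 0 < n)
    have hkpos : (0 : ℝ) < k := by linarith
    have h2 := Real.log_nonneg h1
    rw [Real.log_mul hn'.ne' (by positivity), Real.log_pow, ← hA] at h2
    have h3 : a ≤ 4 * A ^ (1 / 4 : ℝ) := by
      have := Real.log_le_rpow_div (x := A) (ε := 1 / 4) (by linarith) (by norm_num)
      rw [← ha] at this; linarith
    set s := A ^ (1 / 4 : ℝ) with hs
    have hs0 : 0 < s := by positivity
    have hs4 : s ^ 4 = A := by
      rw [hs, ← Real.rpow_natCast, ← Real.rpow_mul (by linarith)]; norm_num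
    have h4 : s ^ 3 ≤ k := by
      have : s ^ 3 ≤ 4 * (A / a) := by
        rw [← mul_div_assoc, le_div_iff₀ ha0, ← hs4]
        have : 0 < s ^ 3 := by positivity
        nlinarith
      linarith
    have h5 : A / k ^ 2 ≤ (s ^ 2)⁻¹ := by
      rw [div_le_iff₀ (by positivity), ← hs4]
      have h6 : (s ^ 3) ^ 2 ≤ (k : ℝ) ^ 2 := pow_le_pow_left₀ (by positivity) h4 2
      calc s ^ 4 = (s ^ 2)⁻¹ * (s ^ 3) ^ 2 := by field_simp
        _ ≤ _ := by gcongr
    have h7 : Real.log (A / k ^ 2) ≤ -(a / 2) := by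
      refine (Real.log_le_log (by positivity) h5).trans (le_of_eq ?_)
      rw [Real.log_inv, Real.log_pow, hs, Real.log_rpow (by linarith), ← ha]
      push_cast; ring
    have h8 : (k : ℝ) * (a / 2) ≤ A := by nlinarith
    have h9 : 4 * A < k * a := by
      rw [← mul_div_assoc, div_lt_iff₀ ha0] at hk1; exact hk1
    linarith
  have h2 : (upperDirDom r 1 (completeHyp n r) : ℝ) ≤ k + r := by exact_mod_cast hmain
  have h3 : (0 : ℝ) ≤ r := by positivity
  nlinarith

lemma three_lower (α : ℝ) (h0 : 0 < α) (h1 : α < 1 / 2) : ∃ c : ℝ, 0 < c ∧ ∀ n : ℕ, 3 ≤ n →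
    c * Real.log n ^ α ≤ upperDirDom 3 1 (completeHyp n 3) := by
  set δ := 1 - 2 * α with hδ
  have hδ0 : 0 < δ := by linarith
  have hδ1 : δ ≤ 1 := by linarith
  refine ⟨δ / 18, by positivity, fun n hn => ?_⟩
  have hA0 : 0 ≤ Real.log n := Real.log_natCast_nonneg n
  by_cases h16 : 16 ≤ n
  · have h2 := poly_lower (r := 3) (p := 1) (L := 3) h16 le_rfl (by norm_num) (by norm_num)
      (Or.inl le_rfl)
    refine le_trans ?_ h2
    set A := Real.log n with hA
    have ha1 : 1 ≤ Real.log A := one_le_loglog h16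
    have hApos : 0 < A := by
      rcases hA0.lt_or_eq with h | h
      · exact h
      · rw [← h] at ha1; simp at ha1; linarith
    have h3 := Real.log_le_rpow_div (x := A) (ε := δ) hA0 hδ0
    have h4 : (δ * A ^ α) ^ (2 : ℝ) ≤ A / Real.log A := by
      rw [le_div_iff₀ (by linarith), Real.mul_rpow hδ0.le (by positivity), ← Real.rpow_mul hA0]
      have h5 : A ^ (α * 2) * A ^ δ = A := by
        rw [← Real.rpow_add hApos, show α * 2 + δ = 1 by rw [hδ]; ring, Real.rpow_one]
      have h6 : 0 < A ^ (α * 2) := by positivity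
      have h7 : 0 < A ^ δ := by positivity
      calc δ ^ (2 : ℝ) * A ^ (α * 2) * Real.log A ≤ δ ^ (2 : ℝ) * A ^ (α * 2) * (A ^ δ / δ) := by
            gcongr
        _ = δ * (A ^ (α * 2) * A ^ δ) := by rw [Real.rpow_two]; field_simp
        _ ≤ 1 * A := by rw [h5]; gcongr
        _ = A := one_mul A
    have h8 : δ * A ^ α ≤ (A / Real.log A) ^ (1 / 2 : ℝ) := by
      have := Real.rpow_le_rpow (by positivity) h4 (show (0 : ℝ) ≤ 1 / 2 by norm_num)
      rw [← Real.rpow_mul (by positivity)] at this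
      simpa using this
    have e1 : (1 / (((3 : ℕ) : ℝ) - 1)) = 1 / 2 := by norm_num
    rw [e1]
    push_cast
    linarith
  · have h2 : (1 : ℝ) ≤ upperDirDom 3 1 (completeHyp n 3) := by
      exact_mod_cast upper_pos (n := n) (r := 3) (p := 1) (by omega) le_rfl (by norm_num)
    refine le_trans ?_ h2
    have h3 : Real.log n ≤ 15 := by
      have := Real.log_le_sub_one_of_pos (show (0 : ℝ) < n by exact_mod_cast (by omega : 0 < n))
      have h4 : (n : ℝ) ≤ 16 := by exact_mod_cast (by omega : n ≤ 16)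
      linarith
    have h4 : Real.log n ^ α ≤ 15 := by
      calc Real.log n ^ α ≤ (15 : ℝ) ^ α := Real.rpow_le_rpow hA0 h3 h0.le
        _ ≤ (15 : ℝ) ^ (1 : ℝ) := Real.rpow_le_rpow_of_exponent_le (by norm_num) (by linarith)
        _ = 15 := Real.rpow_one _
    have h5 : 0 ≤ Real.log n ^ α := by positivity
    nlinarith

end Pool.Agent.H11.HypDom
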